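import Pool.Agent.H143R3.BT.Stmts

set_option autoImplicit false
set_option linter.unusedSectionVars false

/-! Task Low of the project H143-BT. -/

namespace Pool.Agent.H608R3.BTLow

open Pool.Agent.H143R3.BT
open MeasureTheory ProbabilityTheory Filter Topology
open scoped ENNReal NNReal

universe v

section

variable {Ω' : Type v} [MeasurableSpace Ω'] (P' : Measure Ω') [IsProbabilityMeasure P']
  (W : ℝ≥0 → Ω' → ℝ) (hW : IsBM P' W)

include hW

/-- reversal of the increments on a grid -/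
theorem rev_grid (s : ℝ≥0) (m : ℕ) (hm : 0 < m) (r : ℝ) :
    P' {ω | ∀ k : ℕ, k ≤ m → W (s * k / m) ω - W 0 ω ≤ r} =
      P' {ω | ∀ k : ℕ, k ≤ m → W (s * k / m) ω - W s ω ≤ r} := by
  have hm0 : (m : ℝ≥0) ≠ 0 := by exact_mod_cast hm.ne'
  set t : ℕ → ℝ≥0 := fun i => s * i / m with ht
  have htm : Monotone t := by
    intro i j hij
    simp only [ht]
    have : (i : ℝ≥0) ≤ j := by exact_mod_cast hij
    gcongr
  have ht0 : t 0 = 0 := by simp [ht]
  have htm' : t m = s := by simp only [ht]; field_simp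
  have hstep : ∀ i, t (i + 1) - t i = s / m := by
    intro i
    have : t (i + 1) = t i + s / m := by
      simp only [ht]
      push_cast
      ring
    rw [this, add_tsub_cancel_left]
  set ξ : ℕ → Ω' → ℝ := fun i ω => W (t (i + 1)) ω - W (t i) ω with hξ
  have hI : iIndepFun ξ P' := hW.indep.nat htm
  have hξm : ∀ i, Measurable (ξ i) := fun i => (hW.meas _).sub (hW.meas _)
  have hlaw : ∀ i, P'.map (ξ i) = gaussianReal 0 (s / m) := by
    intro i
    rw [← hstep i]
    exact hW.law _ _ (htm (Nat.le_succ i))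
  have h1 : P'.map (fun ω (i : Fin m) => ξ i ω) = Measure.pi (fun _ => gaussianReal 0 (s / m)) := by
    have := (iIndepFun_iff_map_fun_eq_pi_map (f := fun (i : Fin m) => ξ i)
      (fun i => (hξm i).aemeasurable)).1 (hI.precomp Fin.val_injective)
    rw [this]
    congr 1
    funext i
    exact hlaw i
  have hinj : Function.Injective (fun i : Fin m => ((Fin.rev i : Fin m) : ℕ)) :=
    Fin.val_injective.comp Fin.rev_injective
  have h2 : P'.map (fun ω (i : Fin m) => -(ξ (Fin.rev i : Fin m) ω)) =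
      Measure.pi (fun _ => gaussianReal 0 (s / m)) := by
    have hI2 : iIndepFun (fun (i : Fin m) ω => -(ξ (Fin.rev i : Fin m) ω)) P' :=
      (hI.precomp hinj).comp (fun _ x => -x) (fun _ => measurable_neg)
    have := (iIndepFun_iff_map_fun_eq_pi_map
      (f := fun (i : Fin m) ω => -(ξ (Fin.rev i : Fin m) ω))
      (fun i => (hξm _).neg.aemeasurable)).1 hI2
    rw [this]
    congr 1
    funext i
    have e : P'.map (fun ω => -(ξ (Fin.rev i : Fin m) ω)) =
        (P'.map (ξ (Fin.rev i : Fin m))).map (fun x => -x) := by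
      rw [Measure.map_map measurable_neg (hξm _)]
      rfl
    rw [e, hlaw, gaussianReal_map_neg, neg_zero]
  set A : Set (Fin m → ℝ) := {v | ∀ k : ℕ, k ≤ m → ∑ i : Fin m, (if (i : ℕ) < k then v i else 0) ≤ r}
    with hA
  have hAm : MeasurableSet A := by
    have : A = ⋂ k : ℕ, {v | k ≤ m → ∑ i : Fin m, (if (i : ℕ) < k then v i else 0) ≤ r} := by
      ext v; simp [hA]
    rw [this]
    refine MeasurableSet.iInter fun k => ?_
    by_cases hk : k ≤ m
    · simp only [hk, true_implies]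
      refine measurableSet_le (Finset.measurable_sum _ fun i _ => ?_) measurable_const
      split_ifs
      · exact measurable_pi_apply i
      · exact measurable_const
    · simp only [hk, false_implies]
      exact MeasurableSet.univ
  have hsum : ∀ (f : ℕ → ℝ) (k : ℕ), k ≤ m → ∑ i : Fin m, (if (i : ℕ) < k then f i else 0) =
      ∑ i ∈ Finset.range k, f i := by
    intro f k hk
    rw [Fin.sum_univ_eq_sum_range (fun i => if i < k then f i else 0) m, ← Finset.sum_filter]
    congr 1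
    ext i
    simp only [Finset.mem_filter, Finset.mem_range]
    omega
  have hsum1 : ∀ ω (k : ℕ), k ≤ m → ∑ i : Fin m, (if (i : ℕ) < k then ξ i ω else 0) =
      W (t k) ω - W 0 ω := by
    intro ω k hk
    rw [hsum (fun i => ξ i ω) k hk, Finset.sum_range_sub (fun i => W (t i) ω) k, ht0]
  have hsum2 : ∀ ω (k : ℕ), k ≤ m → ∑ i : Fin m,
      (if (i : ℕ) < k then -(ξ (Fin.rev i : Fin m) ω) else 0) = W (t (m - k)) ω - W s ω := by
    intro ω k hk
    have e : ∀ i : Fin m, (if (i : ℕ) < k then -(ξ (Fin.rev i : Fin m) ω) else 0) =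
        (if (i : ℕ) < k then (fun j => -(ξ (m - 1 - j) ω)) i else 0) := by
      intro i
      have : ((Fin.rev i : Fin m) : ℕ) = m - 1 - i := by rw [Fin.val_rev]; omega
      rw [this]
    rw [Finset.sum_congr rfl fun i _ => e i, hsum (fun j => -(ξ (m - 1 - j) ω)) k hk]
    clear e
    induction k with
    | zero => simp [htm']
    | succ k ih =>
      rw [Finset.sum_range_succ, ih (by omega)]
      simp only [hξ]
      rw [show m - 1 - k + 1 = m - k by omega, show m - 1 - k = m - (k + 1) by omega]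
      ring
  have g1 : {ω | ∀ k : ℕ, k ≤ m → W (s * k / m) ω - W 0 ω ≤ r} =
      (fun ω (i : Fin m) => ξ i ω) ⁻¹' A := by
    ext ω
    simp only [Set.mem_ofPred_eq, Set.mem_preimage, hA]
    refine forall_congr' fun k => ?_
    constructor
    · intro h hk
      rw [hsum1 ω k hk]
      exact h hk
    · intro h hk
      have := h hk
      rwa [hsum1 ω k hk] at this
  have g2 : {ω | ∀ k : ℕ, k ≤ m → W (s * k / m) ω - W s ω ≤ r} =
      (fun ω (i : Fin m) => -(ξ (Fin.rev i : Fin m) ω)) ⁻¹' A := by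
    ext ω
    simp only [Set.mem_ofPred_eq, Set.mem_preimage, hA]
    constructor
    · intro h k hk
      rw [hsum2 ω k hk]
      exact h (m - k) (Nat.sub_le _ _)
    · intro h k hk
      have := h (m - k) (Nat.sub_le _ _)
      rw [hsum2 ω (m - k) (Nat.sub_le _ _), Nat.sub_sub_self hk] at this
      exact this
  have m1 : Measurable (fun ω (i : Fin m) => ξ i ω) := measurable_pi_iff.2 fun i => hξm i
  have m2 : Measurable (fun ω (i : Fin m) => -(ξ (Fin.rev i : Fin m) ω)) :=
    measurable_pi_iff.2 fun i => (hξm _).neg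
  rw [g1, g2, ← Measure.map_apply m1 hAm, ← Measure.map_apply m2 hAm, h1, h2]

omit [IsProbabilityMeasure P'] hW in
theorem tq_le (s : ℝ≥0) (p : ℕ × ℕ) : tq s p ≤ s := by
  unfold tq
  calc s * min ((p.1 : ℝ≥0) / (p.2 + 1)) 1 ≤ s * 1 := by
        gcongr
        exact min_le_right _ _
    _ = s := mul_one s

omit [IsProbabilityMeasure P'] hW in
theorem tq_grid (s : ℝ≥0) (p : ℕ × ℕ) :
    ∃ n k : ℕ, k ≤ n.factorial ∧ tq s p = s * k / n.factorial := by
  obtain ⟨i, j⟩ := p
  unfold tq
  simp only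
  have hj : ((j + 1 : ℕ) : ℝ≥0) ≠ 0 := by exact_mod_cast Nat.succ_ne_zero j
  have hj! : ((j.factorial : ℕ) : ℝ≥0) ≠ 0 := by exact_mod_cast Nat.factorial_ne_zero j
  rcases le_total i (j + 1) with h | h
  · refine ⟨j + 1, i * j.factorial, ?_, ?_⟩
    · rw [Nat.factorial_succ]
      exact Nat.mul_le_mul_right _ h
    · have : (i : ℝ≥0) / (j + 1) ≤ 1 := by
        rw [div_le_one (by positivity)]
        exact_mod_cast h
      rw [min_eq_left this, Nat.factorial_succ]
      push_cast
      push_cast at hj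
      field_simp
  · refine ⟨j + 1, (j + 1).factorial, le_rfl, ?_⟩
    have : 1 ≤ (i : ℝ≥0) / (j + 1) := by
      rw [one_le_div (by positivity)]
      exact_mod_cast h
    have h2 : (((j + 1).factorial : ℕ) : ℝ≥0) ≠ 0 := by
      exact_mod_cast Nat.factorial_ne_zero (j + 1)
    rw [min_eq_right this, mul_one, mul_div_assoc, div_self h2, mul_one]

/-- law of the running maximum seen from the end point -/
theorem prob_E1 (hM : ∀ x : ℝ≥0 → ℝ, ∀ s : ℝ≥0, Continuous x → IsLUB (x '' Set.Iic s) (sp s x))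
    (s : ℝ≥0) (r : ℝ) :
    P' {ω | sp s (fun u => W u ω) ≤ r} ≤
      P' {ω | sp s (stp s (fun t => W t ω)) - stp s (fun t => W t ω) s ≤ r} := by
  set F : ℕ → Set Ω' := fun n =>
    {ω | ∀ k : ℕ, k ≤ n.factorial → W (s * k / n.factorial) ω - W s ω ≤ r} with hF
  have hFm : ∀ n, MeasurableSet (F n) := by
    intro n
    have : F n = ⋂ k : ℕ, {ω | k ≤ n.factorial → W (s * k / n.factorial) ω - W s ω ≤ r} := by
      ext v; simp [hF]
    rw [this]
    refine MeasurableSet.iInter fun k => ?_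
    by_cases hk : k ≤ n.factorial
    · simp only [hk, true_implies]
      exact measurableSet_le ((hW.meas _).sub (hW.meas _)) measurable_const
    · simp only [hk, false_implies]
      exact MeasurableSet.univ
  have hanti : Antitone F := by
    intro n n' hn ω hω k hk
    obtain ⟨q, hq⟩ := Nat.factorial_dvd_factorial hn
    have hq0 : 0 < q := by
      rcases Nat.eq_zero_or_pos q with h | h
      · rw [h, mul_zero] at hq
        exact absurd hq (Nat.factorial_ne_zero _)
      · exact h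
    have h1 := hω (k * q) (by rw [hq]; exact Nat.mul_le_mul_right _ hk)
    have hn0 : ((n.factorial : ℕ) : ℝ≥0) ≠ 0 := by exact_mod_cast Nat.factorial_ne_zero n
    have hq1 : (q : ℝ≥0) ≠ 0 := by exact_mod_cast hq0.ne'
    have e : s * ((k * q : ℕ) : ℝ≥0) / (n'.factorial : ℕ) = s * k / n.factorial := by
      rw [hq]
      push_cast
      field_simp
    rw [e] at h1
    exact h1
  have hlim := tendsto_measure_iInter_atTop (μ := P') (fun n => (hFm n).nullMeasurableSet) hanti
    ⟨0, measure_ne_top _ _⟩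
  have hge : ∀ n, P' {ω | sp s (fun u => W u ω) ≤ r} ≤ P' (F n) := by
    intro n
    have h1 := rev_grid P' W hW s n.factorial (Nat.factorial_pos n) r
    show _ ≤ P' {ω | ∀ k : ℕ, k ≤ n.factorial → W (s * k / n.factorial) ω - W s ω ≤ r}
    rw [← h1]
    refine measure_mono_ae ?_
    filter_upwards [hW.zero, hW.cont] with ω h0 hc hsp k hk
    rw [h0, sub_zero]
    have h2 := hM (fun u => W u ω) s hc
    have hn0 : (0 : ℝ≥0) < (n.factorial : ℕ) := by exact_mod_cast Nat.factorial_pos n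
    have h3 : s * k / n.factorial ≤ s := by
      rw [div_le_iff₀ hn0]
      have : (k : ℝ≥0) ≤ (n.factorial : ℕ) := by exact_mod_cast hk
      gcongr
    exact (h2.1 ⟨_, h3, rfl⟩).trans hsp
  have h1 : P' {ω | sp s (fun u => W u ω) ≤ r} ≤ P' (⋂ n, F n) :=
    ge_of_tendsto' hlim hge
  refine h1.trans (measure_mono ?_)
  intro ω hω
  rw [Set.mem_iInter] at hω
  show sp s (stp s (fun t => W t ω)) - stp s (fun t => W t ω) s ≤ r
  have e1 : stp s (fun t => W t ω) s = W s ω := by unfold stp; rw [min_self]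
  rw [e1, sub_le_iff_le_add]
  unfold sp
  refine ciSup_le fun p => ?_
  show W (min (tq s p) s) ω ≤ r + W s ω
  rw [min_eq_left (tq_le s p)]
  obtain ⟨n, k, hk, hp⟩ := tq_grid s p
  rw [hp]
  have := hω n k hk
  linarith


theorem stp_cont {s : ℝ≥0} {x : ℝ≥0 → ℝ} (hx : Continuous x) : Continuous (stp s x) :=
  hx.comp (continuous_id.min continuous_const)

theorem facts (hM : TaskM.{v}) (x : ℝ≥0 → ℝ) (hx : Continuous x) (hx0 : x 0 = 0) (t : ℝ≥0) :
    Integrable (fun ω => sp t (fun u => sp u x + W u ω)) P' ∧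
    ∀ᵐ ω ∂P', ∀ p, sp (tq t p) x + W (tq t p) ω ≤ sp t (fun u => sp u x + W u ω) := by
  obtain ⟨-, hmeas, -, hint, hlub⟩ := hM Ω' P' W hW t
  have hL : ∀ s, IsLUB (x '' Set.Iic s) (sp s x) := fun s => (hM Ω' P' W hW s).2.2.2.2 x hx
  have hub : ∀ᵐ ω ∂P', ∀ p, sp (tq t p) x + W (tq t p) ω ≤ sp t x + sp t (fun u => W u ω) := by
    filter_upwards [hW.cont] with ω hc p
    have h1 : sp (tq t p) x ≤ sp t x := by
      refine (hL (tq t p)).2 ?_
      rintro _ ⟨w, hw, rfl⟩
      exact (hL t).1 ⟨w, le_trans hw (tq_le t p), rfl⟩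
    have h2 : W (tq t p) ω ≤ sp t (fun u => W u ω) :=
      (hlub (fun u => W u ω) hc).1 ⟨_, tq_le t p, rfl⟩
    exact add_le_add h1 h2
  have hle : ∀ᵐ ω ∂P', ∀ p, sp (tq t p) x + W (tq t p) ω ≤
      sp t (fun u => sp u x + W u ω) := by
    filter_upwards [hub] with ω h p
    exact le_ciSup (f := fun p => sp (tq t p) x + W (tq t p) ω)
      ⟨_, by rintro _ ⟨q, rfl⟩; exact h q⟩ p
  refine ⟨?_, hle⟩
  refine Integrable.mono' (g := fun ω => sp t x + sp t (fun u => W u ω))
    ((integrable_const _).add hint) ?_ ?_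
  · exact (hmeas.comp (measurable_pi_iff.2 fun u =>
      measurable_const.add (hW.meas u))).aestronglyMeasurable
  · filter_upwards [hub, hle, hW.zero] with ω h1 h2 h0
    have h3 := h2 (0, 0)
    have h4 : tq t (0, 0) = 0 := by unfold tq; simp
    rw [h4, h0, add_zero] at h3
    have h5 : 0 ≤ sp 0 x := by
      have := (hL 0).1 ⟨0, Set.mem_Iic.2 le_rfl, rfl⟩
      rwa [hx0] at this
    have h6 : 0 ≤ sp t (fun u => sp u x + W u ω) := h5.trans h3
    rw [Real.norm_eq_abs, abs_of_nonneg h6]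
    exact ciSup_le h1

theorem one_side (hM : TaskM.{v}) (x : ℝ≥0 → ℝ) (hx : Continuous x) (hx0 : x 0 = 0)
    (t s s' : ℝ≥0) (hss : s ≤ s') (hst : s' ≤ t) (D : ℝ) (hD : 0 ≤ D)
    (h : sp s x + D ≤ sp s' x) (E : Set Ω') (hEm : MeasurableSet E)
    (hE : ∀ᵐ ω ∂P', ω ∈ E → ∀ v ≤ s', W v ω ≤ W t ω + D / 2) :
    U P' W t (fun v => sp v (stp s x)) + D / 2 * (P' E).toReal ≤ U P' W t (fun v => sp v x) := by
  have hL : ∀ (y : ℝ≥0 → ℝ) s, Continuous y → IsLUB (y '' Set.Iic s) (sp s y) :=
    fun y s hy => (hM Ω' P' W hW s).2.2.2.2 y hy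
  obtain ⟨i1, a1⟩ := facts P' W hW hM x hx hx0 t
  have hs0 : stp s x 0 = 0 := by
    unfold stp
    rw [min_eq_left zero_le, hx0]
  obtain ⟨i2, a2⟩ := facts P' W hW hM (stp s x) (stp_cont P' W hW hx) hs0 t
  have hmono : ∀ u w : ℝ≥0, u ≤ w → sp u x ≤ sp w x := by
    intro u w huw
    refine (hL x u hx).2 ?_
    rintro _ ⟨z, hz, rfl⟩
    exact (hL x w hx).1 ⟨z, le_trans hz huw, rfl⟩
  have hg1 : ∀ u, sp u (stp s x) ≤ sp s x := by
    intro u
    refine (hL _ u (stp_cont P' W hW hx)).2 ?_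
    rintro _ ⟨z, hz, rfl⟩
    exact (hL x s hx).1 ⟨min z s, Set.mem_Iic.2 (min_le_right _ _), rfl⟩
  have hg2 : ∀ u, sp u (stp s x) ≤ sp u x := by
    intro u
    refine (hL _ u (stp_cont P' W hW hx)).2 ?_
    rintro _ ⟨z, hz, rfl⟩
    exact (hL x u hx).1 ⟨min z s, Set.mem_Iic.2 ((min_le_left _ _).trans hz), rfl⟩
  have htt : tq t (1, 0) = t := by unfold tq; simp
  have hae : ∀ᵐ ω ∂P', sp t (fun u => sp u (stp s x) + W u ω) + E.indicator (fun _ => D / 2) ω ≤
      sp t (fun u => sp u x + W u ω) := by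
    filter_upwards [a1, hE] with ω h1 h2
    by_cases hω : ω ∈ E
    · rw [Set.indicator_of_mem hω, ← le_sub_iff_add_le]
      have h3 := h1 (1, 0)
      rw [htt] at h3
      refine ciSup_le fun p => ?_
      rcases le_total (tq t p) s' with hv | hv
      · have h4 := h2 hω (tq t p) hv
        have h5 := hg1 (tq t p)
        have h6 := hmono s' t hst
        linarith
      · have h4 := h1 p
        have h5 := hg1 (tq t p)
        have h6 := hmono s' (tq t p) hv
        linarith
    · rw [Set.indicator_of_notMem hω, add_zero]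
      refine ciSup_le fun p => ?_
      have h4 := h1 p
      have h5 := hg2 (tq t p)
      linarith
  have hind : Integrable (E.indicator (fun _ => D / 2)) P' :=
    (integrable_const _).indicator hEm
  have h7 := integral_mono_ae (i2.add hind) i1 hae
  have h8 : ∫ ω, E.indicator (fun _ => D / 2) ω ∂P' = D / 2 * (P' E).toReal := by
    rw [integral_indicator_const _ hEm, smul_eq_mul, mul_comm]
    rfl
  have h9 := integral_add i2 hind
  rw [h8] at h9
  unfold U
  rw [← h9]
  exact h7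

theorem mono_side (hM : TaskM.{v}) (x : ℝ≥0 → ℝ) (hx : Continuous x) (hx0 : x 0 = 0)
    (t s : ℝ≥0) (hst : s ≤ t) :
    U P' W t (fun v => sp v (stp s x)) ≤ U P' W t (fun v => sp v x) := by
  have := one_side P' W hW hM x hx hx0 t s s le_rfl hst 0 le_rfl (by rw [add_zero]) ∅
    MeasurableSet.empty (Filter.Eventually.of_forall fun ω h => absurd h (Set.notMem_empty ω))
  simpa using this

theorem prob_E2 (s t : ℝ≥0) (hst : s ≤ t) :
    gaussianReal 0 1 (Set.Ici 1) ≤ P' {ω | √((t : ℝ) - s) ≤ W t ω - W s ω} := by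
  have h1 : P' {ω | √((t : ℝ) - s) ≤ W t ω - W s ω} =
      gaussianReal 0 (t - s) (Set.Ici (√((t : ℝ) - s))) := by
    have hm : Measurable (fun ω => W t ω - W s ω) := (hW.meas _).sub (hW.meas _)
    rw [← hW.law s t hst, Measure.map_apply hm measurableSet_Ici]
    rfl
  have h0 : (0 : ℝ) ≤ (t : ℝ) - s := sub_nonneg.2 (by exact_mod_cast hst)
  have h2 := gaussianReal_map_const_mul (μ := 0) (v := 1) (√((t : ℝ) - s))
  have h3 : (NNReal.mk (√((t : ℝ) - s) ^ 2) (sq_nonneg _)) * 1 = t - s := by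
    apply NNReal.eq
    rw [mul_one, NNReal.coe_sub hst]
    exact Real.sq_sqrt h0
  rw [mul_zero, h3] at h2
  rw [h1, ← h2, Measure.map_apply (measurable_const_mul _) measurableSet_Ici]
  refine measure_mono fun z hz => ?_
  have hz' : 1 ≤ z := hz
  show √((t : ℝ) - s) ≤ √((t : ℝ) - s) * z
  have := Real.sqrt_nonneg ((t : ℝ) - s)
  nlinarith

theorem prob_E (hM : TaskM.{v}) (hI : TaskI.{v}) (s t : ℝ≥0) (hst : s ≤ t) (r : ℝ) :
    P' ({ω | sp s (stp s (fun t => W t ω)) - stp s (fun t => W t ω) s ≤ r} ∩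
        {ω | √((t : ℝ) - s) ≤ W t ω - W s ω}) =
      P' {ω | sp s (stp s (fun t => W t ω)) - stp s (fun t => W t ω) s ≤ r} *
        P' {ω | √((t : ℝ) - s) ≤ W t ω - W s ω} := by
  set S1 : Set (ℝ≥0 → ℝ) := {p | sp s p - p s ≤ r} with hS1
  set S2 : Set (ℝ≥0 → ℝ) := {z | √((t : ℝ) - s) ≤ z (t - s)} with hS2
  have m1 : MeasurableSet S1 :=
    measurableSet_le ((hM Ω' P' W hW s).2.1.sub (measurable_pi_apply s)) measurable_const
  have m2 : MeasurableSet S2 := measurableSet_le measurable_const (measurable_pi_apply _)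
  have hΦ : Measurable (fun q : (ℝ≥0 → ℝ) × (ℝ≥0 → ℝ) =>
      S1.indicator (fun _ => (1 : ℝ≥0∞)) q.1 * S2.indicator (fun _ => (1 : ℝ≥0∞)) q.2) :=
    ((measurable_const.indicator m1).comp measurable_fst).mul
      ((measurable_const.indicator m2).comp measurable_snd)
  have key := (hI Ω' P' W hW s).2 _ hΦ
  have mp : Measurable (fun ω => stp s (fun t => W t ω)) :=
    measurable_pi_iff.2 fun u => hW.meas _
  have mz : Measurable (fun ω => shf s (fun t => W t ω)) :=
    measurable_pi_iff.2 fun u => (hW.meas _).sub (hW.meas _)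
  set T1 : Set Ω' := (fun ω => stp s (fun t => W t ω)) ⁻¹' S1 with hT1
  set T2 : Set Ω' := (fun ω => shf s (fun t => W t ω)) ⁻¹' S2 with hT2
  have mT1 : MeasurableSet T1 := mp m1
  have mT2 : MeasurableSet T2 := mz m2
  have e1 : ∀ ω, S1.indicator (fun _ => (1 : ℝ≥0∞)) (stp s (fun t => W t ω)) =
      T1.indicator (fun _ => (1 : ℝ≥0∞)) ω := fun ω => rfl
  have e2 : ∀ ω, S2.indicator (fun _ => (1 : ℝ≥0∞)) (shf s (fun t => W t ω)) =
      T2.indicator (fun _ => (1 : ℝ≥0∞)) ω := fun ω => rfl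
  simp only [e1, e2] at key
  have k1 : ∫⁻ ω, T1.indicator (fun _ => (1 : ℝ≥0∞)) ω * T2.indicator (fun _ => (1 : ℝ≥0∞)) ω ∂P' =
      P' (T1 ∩ T2) := by
    rw [← lintegral_indicator_one (mT1.inter mT2)]
    refine lintegral_congr fun ω => ?_
    by_cases h1 : ω ∈ T1 <;> by_cases h2 : ω ∈ T2 <;> simp [h1, h2]
  have k2 : ∫⁻ ω₁, ∫⁻ ω₂, T1.indicator (fun _ => (1 : ℝ≥0∞)) ω₁ *
      T2.indicator (fun _ => (1 : ℝ≥0∞)) ω₂ ∂P' ∂P' = P' T1 * P' T2 := by
    have : ∀ ω₁, ∫⁻ ω₂, T1.indicator (fun _ => (1 : ℝ≥0∞)) ω₁ *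
        T2.indicator (fun _ => (1 : ℝ≥0∞)) ω₂ ∂P' =
        T1.indicator (fun _ => (1 : ℝ≥0∞)) ω₁ * P' T2 := by
      intro ω₁
      rw [lintegral_const_mul _ (measurable_const.indicator mT2)]
      congr 1
      exact lintegral_indicator_one mT2
    simp only [this]
    rw [lintegral_mul_const _ (measurable_const.indicator mT1)]
    congr 1
    exact lintegral_indicator_one mT1
  rw [k1, k2] at key
  have g1 : {ω | sp s (stp s (fun t => W t ω)) - stp s (fun t => W t ω) s ≤ r} = T1 := rfl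
  have g2 : {ω | √((t : ℝ) - s) ≤ W t ω - W s ω} = T2 := by
    ext ω
    show √((t : ℝ) - s) ≤ W t ω - W s ω ↔ √((t : ℝ) - s) ≤ W (s + (t - s)) ω - W s ω
    rw [add_tsub_cancel_of_le hst]
  rw [g1, g2]
  exact key

end

theorem taskLow : TaskLow.{v} := by
  intro hM hI hR
  obtain ⟨c, hc, hR⟩ := hR
  set c1 : ℝ := (gaussianReal 0 1 (Set.Ici 1)).toReal with hc1
  have hc1p : 0 < c1 := by
    rw [hc1, ENNReal.toReal_pos_iff]
    refine ⟨?_, measure_lt_top _ _⟩
    rw [pos_iff_ne_zero]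
    intro h0
    have := gaussianReal_absolutelyContinuous' 0 (one_ne_zero (α := ℝ≥0)) h0
    rw [Real.volume_Ici] at this
    exact ENNReal.top_ne_zero this
  refine ⟨c * c1 / 4, by positivity, ?_⟩
  intro Ω' _ P' _ W hW t s s' x D ht hss hst hx hx0 hD hn
  have hL : ∀ (y : ℝ≥0 → ℝ) s, Continuous y → IsLUB (y '' Set.Iic s) (sp s y) :=
    fun y s hy => (hM Ω' P' W hW s).2.2.2.2 y hy
  -- main estimate for one side
  have main : ∀ y : ℝ≥0 → ℝ, Continuous y → y 0 = 0 → sp s y + D ≤ sp s' y →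
      U P' W t (fun v => sp v (stp s y)) +
        c * c1 / 4 * (D * min 1 ((D + √((t : ℝ) - s')) / √(t : ℝ))) ≤
      U P' W t (fun v => sp v y) := by
    intro y hy hy0 hyD
    rcases hD.eq_or_lt with hD0 | hDp
    · rw [← hD0, zero_mul, mul_zero, add_zero]
      exact mono_side P' W hW hM y hy hy0 t s (hss.trans hst)
    have hs' : 0 < s' := by
      rw [pos_iff_ne_zero]
      intro h0
      have hs0 : s = 0 := le_antisymm (h0 ▸ hss) zero_le
      rw [h0, hs0] at hyD
      linarith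
    set q : ℝ := √((t : ℝ) - s') with hq
    have hq0 : 0 ≤ q := Real.sqrt_nonneg _
    set r : ℝ := D / 2 + q with hr
    set E1 : Set Ω' := {ω | sp s' (stp s' (fun t => W t ω)) - stp s' (fun t => W t ω) s' ≤ r}
      with hE1
    set E2 : Set Ω' := {ω | √((t : ℝ) - s') ≤ W t ω - W s' ω} with hE2
    have mE1 : MeasurableSet E1 := by
      have mp : Measurable (fun ω => stp s' (fun t => W t ω)) :=
        measurable_pi_iff.2 fun u => hW.meas _
      have m1 : MeasurableSet {p : ℝ≥0 → ℝ | sp s' p - p s' ≤ r} :=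
        measurableSet_le ((hM Ω' P' W hW s').2.1.sub (measurable_pi_apply s')) measurable_const
      exact mp m1
    have mE2 : MeasurableSet E2 :=
      measurableSet_le measurable_const ((hW.meas _).sub (hW.meas _))
    have hE : ∀ᵐ ω ∂P', ω ∈ E1 ∩ E2 → ∀ v ≤ s', W v ω ≤ W t ω + D / 2 := by
      filter_upwards [hW.cont] with ω hcont hω v hv
      have h1 : sp s' (stp s' (fun t => W t ω)) - stp s' (fun t => W t ω) s' ≤ r := hω.1
      have h2 : q ≤ W t ω - W s' ω := hω.2
      have h3 : W v ω ≤ sp s' (stp s' (fun t => W t ω)) := by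
        have := (hL (stp s' (fun t => W t ω)) s' (stp_cont P' W hW hcont)).1 ⟨v, hv, rfl⟩
        have e : stp s' (fun t => W t ω) v = W v ω := by
          unfold stp
          rw [min_eq_left hv]
        rwa [e] at this
      have h4 : stp s' (fun t => W t ω) s' = W s' ω := by
        unfold stp
        rw [min_self]
      rw [h4] at h1
      linarith
    have h1 := one_side P' W hW hM y hy hy0 t s s' hss hst D hD hyD (E1 ∩ E2) (mE1.inter mE2) hE
    have h2 : ENNReal.ofReal (c * min 1 (r / √(s' : ℝ))) ≤ P' E1 :=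
      (hR Ω' P' W hW s' hs' r (by positivity)).trans
        (prob_E1 P' W hW (fun x s hx => hL x s hx) s' r)
    have h3 : gaussianReal 0 1 (Set.Ici 1) ≤ P' E2 := prob_E2 P' W hW s' t hst
    have h4 : P' (E1 ∩ E2) = P' E1 * P' E2 := prob_E P' W hW hM hI s' t hst r
    have hmin : 0 ≤ min 1 (r / √(s' : ℝ)) := le_min zero_le_one (by positivity)
    have h5 : c * min 1 (r / √(s' : ℝ)) * c1 ≤ (P' (E1 ∩ E2)).toReal := by
      rw [h4, ENNReal.toReal_mul]
      refine mul_le_mul ?_ ?_ hc1p.le ENNReal.toReal_nonneg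
      · rw [← ENNReal.toReal_ofReal (mul_nonneg hc.le hmin)]
        exact ENNReal.toReal_mono (measure_ne_top _ _) h2
      · exact ENNReal.toReal_mono (measure_ne_top _ _) h3
    have ht0 : 0 < √(t : ℝ) := Real.sqrt_pos.2 (by exact_mod_cast ht)
    have hs0 : 0 < √(s' : ℝ) := Real.sqrt_pos.2 (by exact_mod_cast hs')
    have hst' : √(s' : ℝ) ≤ √(t : ℝ) := Real.sqrt_le_sqrt (by exact_mod_cast hst)
    have h6 : (1 / 2) * min 1 ((D + q) / √(t : ℝ)) ≤ min 1 (r / √(s' : ℝ)) := by
      refine le_min ?_ ?_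
      · have := min_le_left 1 ((D + q) / √(t : ℝ))
        linarith
      · have h7 := min_le_right 1 ((D + q) / √(t : ℝ))
        have h8 : (1 / 2) * ((D + q) / √(t : ℝ)) ≤ r / √(s' : ℝ) := by
          rw [← mul_div_assoc, div_le_div_iff₀ ht0 hs0]
          have h9 : (1 / 2) * (D + q) ≤ r := by rw [hr]; linarith
          calc (1 / 2) * (D + q) * √(s' : ℝ) ≤ r * √(s' : ℝ) := by gcongr
            _ ≤ r * √(t : ℝ) := by
              have : 0 ≤ r := by positivity
              gcongr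
        linarith
    have h7 : c * c1 / 4 * (D * min 1 ((D + q) / √(t : ℝ))) ≤ D / 2 * (P' (E1 ∩ E2)).toReal := by
      calc c * c1 / 4 * (D * min 1 ((D + q) / √(t : ℝ))) =
            D / 2 * (c * ((1 / 2) * min 1 ((D + q) / √(t : ℝ))) * c1) := by ring
        _ ≤ D / 2 * (c * min 1 (r / √(s' : ℝ)) * c1) := by gcongr
        _ ≤ D / 2 * (P' (E1 ∩ E2)).toReal := by gcongr
    linarith
  have hxneg : Continuous (fun u => -x u) := hx.neg
  have hx0' : (fun u => -x u) 0 = 0 := by simp [hx0]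
  have e2 : (fun u => -(stp s x u)) = stp s (fun u => -x u) := rfl
  unfold H
  rw [e2]
  have hn1 : sp s x ≤ nrm s x := le_max_left _ _
  have hn2 : sp s (fun u => -x u) ≤ nrm s x := le_max_right _ _
  rcases le_total (sp s' x) (sp s' fun u => -x u) with hcase | hcase
  · have e : nrm s' x = sp s' fun u => -x u := max_eq_right hcase
    rw [e] at hn
    have h1 := main (fun u => -x u) hxneg hx0' (by linarith)
    have h2 := mono_side P' W hW hM x hx hx0 t s (hss.trans hst)
    linarith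
  · have e : nrm s' x = sp s' x := max_eq_left hcase
    rw [e] at hn
    have h1 := main x hx hx0 (by linarith)
    have h2 := mono_side P' W hW hM (fun u => -x u) hxneg hx0' t s (hss.trans hst)
    linarith

end Pool.Agent.H608R3.BTLow
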