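import Pool.Agent.H379R3.CDQ.Stmts

set_option autoImplicit false

/-! Task An of the project H379-CDQ: an anisotropic form. -/

namespace Pool.Agent.H608R3.CDQAn

open Polynomial
open Pool.Agent.H379R3.CDQ

/-- the norm form -/
def N {R : Type} [CommRing R] (x y : R) : R := x ^ 2 + x * y + y ^ 2

/-- anisotropy -/
def An {F ι : Type} [Field F] [Fintype ι] (c : ι → F) : Prop :=
  ∀ x y : ι → F, ∑ k, c k * N (x k) (y k) = 0 → ∀ k, x k = 0 ∧ y k = 0

theorem N_coeff {F : Type} [Field F] (p q : F[X]) (d : ℕ) (hp : p.natDegree ≤ d)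
    (hq : q.natDegree ≤ d) : (N p q).coeff (d + d) = N (p.coeff d) (q.coeff d) := by
  unfold N
  rw [coeff_add, coeff_add, sq p, sq q, coeff_mul_add_eq_of_natDegree_le hp hp,
    coeff_mul_add_eq_of_natDegree_le hp hq, coeff_mul_add_eq_of_natDegree_le hq hq, sq, sq]

theorem N_natDegree {F : Type} [Field F] (p q : F[X]) (d : ℕ) (hp : p.natDegree ≤ d)
    (hq : q.natDegree ≤ d) : (N p q).natDegree ≤ d + d := by
  unfold N
  refine (natDegree_add_le _ _).trans (max_le ((natDegree_add_le _ _).trans (max_le ?_ ?_)) ?_)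
  · rw [sq]; exact natDegree_mul_le.trans (by omega)
  · exact natDegree_mul_le.trans (by omega)
  · rw [sq]; exact natDegree_mul_le.trans (by omega)

theorem evenDeg {F ι : Type} [Field F] [Fintype ι] (c : ι → F) (hc : An c) (p q : ι → F[X])
    (h : ¬ ∀ k, p k = 0 ∧ q k = 0) : ∃ d : ℕ, (∑ k, C (c k) * N (p k) (q k)) ≠ 0 ∧
      (∑ k, C (c k) * N (p k) (q k)).natDegree = d + d := by
  classical
  set s : ι → ℕ := fun k => max (p k).natDegree (q k).natDegree with hs
  push Not at h
  obtain ⟨k0, hk0⟩ := h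
  -- the largest degree among the nonzero entries
  obtain ⟨k1, -, hk1⟩ := Finset.exists_max_image
    (Finset.univ.filter fun k => ¬ (p k = 0 ∧ q k = 0)) s ⟨k0, by
      rw [Finset.mem_filter]; exact ⟨Finset.mem_univ _, fun h => hk0 h.1 h.2⟩⟩
  obtain ⟨k2, hk2, hk2'⟩ := Finset.exists_max_image
    (Finset.univ.filter fun k => ¬ (p k = 0 ∧ q k = 0)) s ⟨k0, by
      rw [Finset.mem_filter]; exact ⟨Finset.mem_univ _, fun h => hk0 h.1 h.2⟩⟩
  rw [Finset.mem_filter] at hk2
  set d := s k2 with hd
  have hle : ∀ k, (p k).natDegree ≤ d ∧ (q k).natDegree ≤ d := by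
    intro k
    by_cases hk : p k = 0 ∧ q k = 0
    · rw [hk.1, hk.2, natDegree_zero]; exact ⟨Nat.zero_le _, Nat.zero_le _⟩
    · have := hk2' k (by rw [Finset.mem_filter]; exact ⟨Finset.mem_univ _, hk⟩)
      exact ⟨(le_max_left _ _).trans this, (le_max_right _ _).trans this⟩
  have hco : (∑ k, C (c k) * N (p k) (q k)).coeff (d + d) =
      ∑ k, c k * N ((p k).coeff d) ((q k).coeff d) := by
    rw [finsetSum_coeff]
    refine Finset.sum_congr rfl fun k _ => ?_
    rw [coeff_C_mul, N_coeff _ _ _ (hle k).1 (hle k).2]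
  have hne : (∑ k, C (c k) * N (p k) (q k)).coeff (d + d) ≠ 0 := by
    rw [hco]
    intro h0
    obtain ⟨h1, h2⟩ := hc _ _ h0 k2
    rcases max_choice (p k2).natDegree (q k2).natDegree with hm | hm
    · have hd' : d = (p k2).natDegree := hm
      rw [hd'] at h1
      have h3 : p k2 = 0 := leadingCoeff_eq_zero.1 h1
      have h4 : q k2 = 0 := by
        have h5 : (q k2).natDegree ≤ 0 := by
          have := (hle k2).2
          rw [hd', h3, natDegree_zero] at this
          exact this
        rw [hd', h3, natDegree_zero] at h2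
        rw [eq_C_of_natDegree_le_zero h5, h2, C_0]
      exact hk2.2 ⟨h3, h4⟩
    · have hd' : d = (q k2).natDegree := hm
      rw [hd'] at h2
      have h3 : q k2 = 0 := leadingCoeff_eq_zero.1 h2
      have h4 : p k2 = 0 := by
        have h5 : (p k2).natDegree ≤ 0 := by
          have := (hle k2).1
          rw [hd', h3, natDegree_zero] at this
          exact this
        rw [hd', h3, natDegree_zero] at h1
        rw [eq_C_of_natDegree_le_zero h5, h1, C_0]
      exact hk2.2 ⟨h4, h3⟩
  refine ⟨d, fun h => hne (by rw [h, coeff_zero]), le_antisymm ?_ (le_natDegree_of_ne_zero hne)⟩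
  refine natDegree_sum_le_of_forall_le _ _ fun k _ => ?_
  refine (natDegree_C_mul_le _ _).trans ?_
  exact N_natDegree _ _ _ (hle k).1 (hle k).2

theorem N_smul {R : Type} [CommRing R] (r x y : R) : N (r * x) (r * y) = r ^ 2 * N x y := by
  unfold N; ring

theorem N_map {R S : Type} [CommRing R] [CommRing S] (f : R →+* S) (x y : R) :
    f (N x y) = N (f x) (f y) := by
  unfold N; simp

theorem step {F ι ι' : Type} [Field F] [Fintype ι] [Fintype ι'] (c : ι → F) (c' : ι' → F)
    (hc : An c) (hc' : An c') : An (F := RatFunc F) (Sum.elim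
      (fun k => algebraMap F[X] (RatFunc F) (C (c k)))
      (fun k => algebraMap F[X] (RatFunc F) (X * C (c' k)))) := by
  classical
  intro x y hxy
  obtain ⟨r, hr⟩ := IsLocalization.exist_integer_multiples (nonZeroDivisors F[X])
    (Finset.univ : Finset ((ι ⊕ ι') ⊕ (ι ⊕ ι'))) (Sum.elim x y)
  have hr0 : (r : F[X]) ≠ 0 := nonZeroDivisors.coe_ne_zero r
  have hr' : algebraMap F[X] (RatFunc F) (r : F[X]) ≠ 0 := by
    rw [Ne, FaithfulSMul.algebraMap_eq_zero_iff]
    exact hr0
  choose P hP using fun k => hr (Sum.inl k) (Finset.mem_univ _)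
  choose Q hQ using fun k => hr (Sum.inr k) (Finset.mem_univ _)
  have hP' : ∀ k, algebraMap F[X] (RatFunc F) (P k) = algebraMap F[X] (RatFunc F) r * x k := by
    intro k
    rw [hP k]
    show (r : F[X]) • x k = _
    rw [Algebra.smul_def]
  have hQ' : ∀ k, algebraMap F[X] (RatFunc F) (Q k) = algebraMap F[X] (RatFunc F) r * y k := by
    intro k
    rw [hQ k]
    show (r : F[X]) • y k = _
    rw [Algebra.smul_def]
  have hpoly : (∑ k, C (c k) * N (P (Sum.inl k)) (Q (Sum.inl k))) +
      X * (∑ k, C (c' k) * N (P (Sum.inr k)) (Q (Sum.inr k))) = 0 := by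
    apply FaithfulSMul.algebraMap_injective F[X] (RatFunc F)
    rw [map_zero, map_add, map_mul, map_sum, map_sum]
    simp only [map_mul, N_map, hP', hQ', N_smul]
    rw [Fintype.sum_sum_type] at hxy
    simp only [Sum.elim_inl, Sum.elim_inr, map_mul] at hxy
    have h1 := congrArg (fun z => (algebraMap F[X] (RatFunc F) r) ^ 2 * z) hxy
    simp only [mul_zero, mul_add, Finset.mul_sum] at h1
    rw [← h1, Finset.mul_sum]
    congr 1
    · exact Finset.sum_congr rfl fun k _ => by ring
    · exact Finset.sum_congr rfl fun k _ => by ring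
  have hzero : (∀ k, P (Sum.inl k) = 0 ∧ Q (Sum.inl k) = 0) ∧
      (∀ k, P (Sum.inr k) = 0 ∧ Q (Sum.inr k) = 0) := by
    by_cases h1 : ∀ k, P (Sum.inl k) = 0 ∧ Q (Sum.inl k) = 0
    · refine ⟨h1, ?_⟩
      by_contra h2
      obtain ⟨d, hd, -⟩ := evenDeg c' hc' (fun k => P (Sum.inr k)) (fun k => Q (Sum.inr k)) h2
      have h3 : ∑ k, C (c k) * N (P (Sum.inl k)) (Q (Sum.inl k)) = 0 := by
        refine Finset.sum_eq_zero fun k _ => ?_
        rw [(h1 k).1, (h1 k).2]
        unfold N
        ring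
      rw [h3, zero_add] at hpoly
      rcases mul_eq_zero.1 hpoly with h | h
      · exact X_ne_zero h
      · exact hd h
    · exfalso
      obtain ⟨d, hd, hd'⟩ := evenDeg c hc (fun k => P (Sum.inl k)) (fun k => Q (Sum.inl k)) h1
      by_cases h2 : ∀ k, P (Sum.inr k) = 0 ∧ Q (Sum.inr k) = 0
      · have h3 : ∑ k, C (c' k) * N (P (Sum.inr k)) (Q (Sum.inr k)) = 0 := by
          refine Finset.sum_eq_zero fun k _ => ?_
          rw [(h2 k).1, (h2 k).2]
          unfold N
          ring
        rw [h3, mul_zero, add_zero] at hpoly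
        exact hd hpoly
      · obtain ⟨e, he, he'⟩ := evenDeg c' hc' (fun k => P (Sum.inr k)) (fun k => Q (Sum.inr k)) h2
        have h4 := eq_neg_of_add_eq_zero_left hpoly
        have h5 := congrArg natDegree h4
        rw [natDegree_neg, natDegree_X_mul he, hd', he'] at h5
        omega
  intro k
  have hPk : P k = 0 ∧ Q k = 0 := by
    rcases k with k | k
    · exact hzero.1 k
    · exact hzero.2 k
  have e1 := hP' k
  have e2 := hQ' k
  rw [hPk.1, map_zero] at e1
  rw [hPk.2, map_zero] at e2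
  exact ⟨(mul_eq_zero.1 e1.symm).resolve_left hr', (mul_eq_zero.1 e2.symm).resolve_left hr'⟩

theorem an0 : An (F := ZMod 2) (ι := Unit) (fun _ => 1) := by
  intro x y h k
  rw [Fintype.sum_unique, one_mul] at h
  have key : ∀ a b : ZMod 2, N a b = 0 → a = 0 ∧ b = 0 := by
    unfold N
    decide
  exact key _ _ h

theorem an1 : An (F := RatFunc (ZMod 2)) (ι := Unit) (fun _ => 1) := by
  intro x y h k
  have h1 := step (fun _ : Unit => (1 : ZMod 2)) (fun _ : Unit => (1 : ZMod 2)) an0 an0
    (Sum.elim x 0) (Sum.elim y 0) (by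
      rw [Fintype.sum_sum_type]
      simp only [Sum.elim_inl, Sum.elim_inr, Pi.zero_apply, map_one]
      rw [h, zero_add]
      refine Finset.sum_eq_zero fun k _ => ?_
      unfold N
      ring) (Sum.inl k)
  exact h1

theorem taskAn : TaskAn := by
  have h2 := step _ (fun _ : Unit => (1 : RatFunc (ZMod 2)))
    (step (fun _ : Unit => (1 : ZMod 2)) (fun _ : Unit => (1 : ZMod 2)) an0 an0) an1
  refine ⟨RatFunc (RatFunc (ZMod 2)), inferInstance, ?_,
    algebraMap (RatFunc (ZMod 2))[X] (RatFunc (RatFunc (ZMod 2)))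
      (C (algebraMap (ZMod 2)[X] (RatFunc (ZMod 2)) (X * C 1))),
    algebraMap (RatFunc (ZMod 2))[X] (RatFunc (RatFunc (ZMod 2))) (X * C 1), ?_⟩
  · exact charP_of_injective_ringHom (f := (algebraMap (RatFunc (ZMod 2))[X]
      (RatFunc (RatFunc (ZMod 2)))).comp ((C : RatFunc (ZMod 2) →+* (RatFunc (ZMod 2))[X]).comp
        ((algebraMap (ZMod 2)[X] (RatFunc (ZMod 2))).comp (C : ZMod 2 →+* (ZMod 2)[X]))))
      (RingHom.injective _) 2
  · intro v hv
    have h3 := h2 (Sum.elim (Sum.elim (fun _ => v 0) (fun _ => v 2)) (fun _ => v 4))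
      (Sum.elim (Sum.elim (fun _ => v 1) (fun _ => v 3)) (fun _ => v 5)) (by
        rw [Fintype.sum_sum_type, Fintype.sum_sum_type, Fintype.sum_unique, Fintype.sum_unique,
          Fintype.sum_unique]
        simp only [Sum.elim_inl, Sum.elim_inr]
        rw [← hv]
        unfold qf N
        simp only [map_one, one_mul])
    have a0 := h3 (Sum.inl (Sum.inl ()))
    have a1 := h3 (Sum.inl (Sum.inr ()))
    have a2 := h3 (Sum.inr ())
    simp only [Sum.elim_inl, Sum.elim_inr] at a0 a1 a2
    funext i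
    fin_cases i
    · exact a0.1
    · exact a0.2
    · exact a1.1
    · exact a1.2
    · exact a2.1
    · exact a2.2

end Pool.Agent.H608R3.CDQAn
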