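import Pool.Agent.H136R4.Stmts

set_option autoImplicit false

/-! Task ADM of the project H136-GL. -/

namespace Pool.Agent.H608R3.GLAdm

open Pool.Agent.H136R4

theorem admStmt : AdmStmt := by
  obtain ⟨D, hDc, hDd⟩ := TopologicalSpace.exists_countable_dense ℂ
  set f : ℕ → ℂ := fun n => (((n : ℝ) + 2)⁻¹ : ℝ) with hf
  have hfinj : Function.Injective f := by
    intro m n h
    have h1 : (((m : ℝ) + 2)⁻¹ : ℝ) = ((n : ℝ) + 2)⁻¹ := Complex.ofReal_injective h
    have h2 := inv_injective h1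
    exact_mod_cast add_right_cancel h2
  set S : Set ℂ := ((D ∩ Metric.ball 0 1) ∪ {0}) ∪ Set.range f with hS
  have hSc : S.Countable :=
    ((hDc.mono Set.inter_subset_left).union (Set.countable_singleton 0)).union
      (Set.countable_range f)
  have hSi : S.Infinite := (Set.infinite_range_of_injective hfinj).mono Set.subset_union_right
  have : Countable S := hSc.to_subtype
  have : Infinite S := hSi.to_subtype
  obtain ⟨hden⟩ := nonempty_denumerable S
  let e : ℕ ≃ S := (Denumerable.eqv S).symm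
  have h0 : (0 : ℂ) ∈ S := Or.inl (Or.inr rfl)
  let i0 := e.symm ⟨0, h0⟩
  have hlt : ∀ z ∈ S, ‖z‖ < 1 := by
    rintro z ((⟨_, hz⟩ | hz) | ⟨n, rfl⟩)
    · exact mem_ball_zero_iff.1 hz
    · rw [Set.mem_singleton_iff.1 hz, norm_zero]; exact one_pos
    · have hn : (0 : ℝ) ≤ n := Nat.cast_nonneg n
      simp only [hf]
      rw [Complex.norm_real, Real.norm_eq_abs, abs_of_pos (by positivity)]
      exact inv_lt_one_of_one_lt₀ (by linarith)
  refine ⟨fun k => (e (Equiv.swap 0 i0 k) : ℂ), ?_, ?_, ?_, ?_⟩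
  · simp only [Equiv.swap_apply_left]
    show ((e (e.symm ⟨0, h0⟩) : S) : ℂ) = 0
    rw [Equiv.apply_symm_apply]
  · exact Subtype.val_injective.comp (e.injective.comp (Equiv.swap 0 i0).injective)
  · intro k
    exact hlt _ (e _).2
  · intro x hx r hr
    set δ : ℝ := min (r / 2) (1 / 2) with hδ
    have hδ0 : 0 < δ := lt_min (by linarith) (by norm_num)
    have hδ1 : δ ≤ r / 2 := min_le_left _ _
    have hδ2 : δ ≤ 1 / 2 := min_le_right _ _
    set y : ℂ := ((1 - δ : ℝ) : ℂ) * x with hy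
    have hxy : ‖x - y‖ ≤ r / 2 := by
      have : x - y = (δ : ℂ) * x := by rw [hy]; push_cast; ring
      rw [this, norm_mul, Complex.norm_real, Real.norm_eq_abs, abs_of_pos hδ0]
      nlinarith [norm_nonneg x]
    have hyn : ‖y‖ ≤ 1 - δ := by
      rw [hy, norm_mul, Complex.norm_real, Real.norm_eq_abs, abs_of_pos (by linarith)]
      nlinarith [norm_nonneg x]
    obtain ⟨d, hd, hdD⟩ := hDd.exists_mem_open Metric.isOpen_ball
      ⟨y, Metric.mem_ball_self (ε := min (r / 2) δ) (lt_min (by linarith) hδ0)⟩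
    have h1 : ‖d - y‖ < min (r / 2) δ := mem_ball_iff_norm.1 hdD
    have h2 : ‖d - y‖ < r / 2 := h1.trans_le (min_le_left _ _)
    have h3 : ‖d - y‖ < δ := h1.trans_le (min_le_right _ _)
    have hdn : ‖d‖ < 1 := by
      have : ‖d‖ ≤ ‖d - y‖ + ‖y‖ := by
        have := norm_add_le (d - y) y
        rwa [sub_add_cancel] at this
      linarith
    have hdS : d ∈ S := Or.inl (Or.inl ⟨hd, mem_ball_zero_iff.2 hdn⟩)
    refine ⟨(Equiv.swap 0 i0).symm (e.symm ⟨d, hdS⟩), ?_⟩
    simp only [Equiv.apply_symm_apply]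
    have : ‖x - d‖ ≤ ‖x - y‖ + ‖d - y‖ := by
      have := norm_sub_le (x - y) (d - y)
      rwa [sub_sub_sub_cancel_right] at this
    linarith

end Pool.Agent.H608R3.GLAdm
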