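import Pool.Agent.H143R3.MT.Stmts

set_option autoImplicit false

/-! Task E1 of the project H143-MT: law of the grid path. -/

namespace Pool.Agent.H608R3.MTE1

open Pool.Agent.H143R3.MT
open MeasureTheory ProbabilityTheory Filter Topology
open scoped ENNReal NNReal

universe u

/-- the path started from `x` with given increments -/
def pth : (n : ℕ) → ℤ → (Fin n → ℤ) → List ℤ
  | 0, _, _ => []
  | n + 1, x, v => (x + v 0) :: pth n (x + v 0) (Fin.tail v)

theorem pth_eq (n : ℕ) (g : ℕ → ℤ) :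
    List.ofFn (fun i : Fin n => g (i + 1)) = pth n (g 0) (fun i : Fin n => g (i + 1) - g i) := by
  induction n generalizing g with
  | zero => simp [pth]
  | succ n ih =>
    rw [List.ofFn_succ, pth]
    have h := ih (fun i => g (i + 1))
    have e : g 0 + (g (((0 : Fin (n + 1)) : ℕ) + 1) - g ((0 : Fin (n + 1)) : ℕ)) = g 1 := by
      simp
    rw [e]
    have e2 : g (((0 : Fin (n + 1)) : ℕ) + 1) = g 1 := by simp
    rw [e2]
    refine congrArg (List.cons (g 1)) ?_
    exact h

theorem EX_eq (p : ℤ → ℝ≥0∞) (n : ℕ) (x : ℤ) (f : List ℤ → ℝ≥0∞) :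
    EX p n x f = ∑' v : Fin n → ℤ, f (pth n x v) * ∏ i, p (v i) := by
  induction n generalizing x f with
  | zero =>
    rw [tsum_eq_single (default : Fin 0 → ℤ) (fun b hb => absurd (Subsingleton.elim _ _) hb)]
    simp [EX, pth]
  | succ n ih =>
    rw [EX, ← (Fin.consEquiv (fun _ => ℤ)).tsum_eq, ENNReal.tsum_prod',
      ← (Equiv.addLeft x).tsum_eq]
    refine tsum_congr fun a => ?_
    rw [ih, ← ENNReal.tsum_mul_left]
    refine tsum_congr fun v => ?_
    have e1 : pth (n + 1) x (Fin.consEquiv (fun _ => ℤ) (a, v)) = (x + a) :: pth n (x + a) v := rfl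
    rw [e1, Fin.prod_univ_succ]
    have e2 : ∀ i : Fin n, (Fin.consEquiv (fun _ => ℤ) (a, v)) i.succ = v i := fun i => rfl
    have e3 : (Fin.consEquiv (fun _ : Fin (n + 1) => ℤ) (a, v)) 0 = a := rfl
    simp only [e2, e3]
    have e4 : (Equiv.addLeft x) a = x + a := rfl
    rw [e4, add_sub_cancel_left]
    ring

theorem taskE1 : TaskE1.{u} := by
  intro Ω _ P _ κ X hX h n f
  set t : ℕ → ℝ≥0 := fun i => (i : ℝ≥0) * h with ht0
  have ht : Monotone t := fun i j hij => by
    simp only [ht0]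
    gcongr
  have hI := hX.indep.nat ht
  set ξ : Ω → Fin n → ℤ := fun ω i => X (t ((i : ℕ) + 1)) ω - X (t i) ω with hξ0
  have hξ : Measurable ξ := measurable_pi_iff.2 fun i => (hX.meas _).sub (hX.meas _)
  have e1 : ∫⁻ ω, f (gl X h n ω) ∂P = ∫⁻ ω, f (pth n 0 (ξ ω)) ∂P := by
    refine lintegral_congr_ae ?_
    filter_upwards [hX.zero] with ω hω
    have h1 := pth_eq n (fun i => X (t i) ω)
    have h2 : X (t 0) ω = 0 := by simpa [ht0] using hω
    simp only [h2] at h1
    exact congrArg f h1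
  rw [e1, ← lintegral_map (f := fun v => f (pth n 0 v)) (measurable_of_countable _) hξ,
    lintegral_countable', EX_eq]
  refine tsum_congr fun v => ?_
  congr 1
  rw [Measure.map_apply hξ (measurableSet_singleton v)]
  have e2 : ξ ⁻¹' {v} = ⋂ i ∈ (Finset.univ : Finset (Fin n)),
      (fun ω => X (t ((i : ℕ) + 1)) ω - X (t i) ω) ⁻¹' {v i} := by
    ext ω
    simp only [Set.mem_preimage, Set.mem_singleton_iff, Set.mem_iInter, Finset.mem_univ,
      true_implies]
    exact funext_iff
  rw [e2, (iIndepFun.precomp Fin.val_injective hI).measure_inter_preimage_eq_mul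
    Finset.univ (sets := fun i => {v i}) (fun i _ => measurableSet_singleton _)]
  refine Finset.prod_congr rfl fun i _ => ?_
  have hm : Measurable (fun ω => X (t ((i : ℕ) + 1)) ω - X (t i) ω) :=
    (hX.meas _).sub (hX.meas _)
  show P ((fun ω => X (t ((i : ℕ) + 1)) ω - X (t i) ω) ⁻¹' {v i}) = _
  rw [← Measure.map_apply hm (measurableSet_singleton _),
    hX.law (t i) (t ((i : ℕ) + 1)) (ht (Nat.le_succ _)), sk]
  congr 3
  rw [ht0]
  simp only [Nat.cast_add, Nat.cast_one, add_mul, one_mul, add_tsub_cancel_left]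

end Pool.Agent.H608R3.MTE1
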